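import Pool.Agent.helper890_gap.Main

/-!
An exponential bound for the Ramsey numbers with ordered gaps, for all gap orders with a bounded
number of local minima.
-/

set_option autoImplicit false
set_option linter.unusedVariables false

namespace Pool.Agent.Results.MP_4cb405_co.FewLocalMinima

open Finset Pool.Agent.helper890_gap

/-- The gaps which are prescribed to be smaller than the (one or two) adjacent gaps. The gap `g`
is larger than the gap `h` iff `g` is listed before `h`, that is `π.symm g < π.symm h`. -/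
def localMin {n : ℕ} (π : Equiv.Perm (Fin n)) : Finset (Fin n) :=
  Finset.univ.filter (fun g => ∀ h : Fin n,
    ((h : ℕ) + 1 = (g : ℕ) ∨ (g : ℕ) + 1 = (h : ℕ)) → π.symm h < π.symm g)

/-- For all `q ≥ 1` and `k` there is `c` such that for all `t ≥ 1`, every permutation `π` of the
`t - 1` gaps prescribing at most `k` local minima, and `N ≥ 2 ^ (c t)`, each `q`-colouring of `K_N`
has a monochromatic `K_t` whose consecutive gaps strictly decrease in the order given by `π`. -/
theorem result :
    ∀ q : ℕ, 0 < q → ∀ k : ℕ, ∃ c : ℕ, ∀ t : ℕ, 0 < t → ∀ π : Equiv.Perm (Fin (t - 1)),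
      (localMin π).card ≤ k →
      ∀ N : ℕ, 2 ^ (c * t) ≤ N → ∀ f : ℕ → ℕ → Fin q,
        ∃ a : ℕ → ℕ, ∃ col : Fin q,
          (∀ i : ℕ, i + 1 < t → a i < a (i + 1)) ∧
          (∀ i : ℕ, i < t → a i < N) ∧
          (∀ i j : ℕ, i < j → j < t → f (a i) (a j) = col) ∧
          (∀ i j : Fin (t - 1), i < j →
            a (((π j : Fin (t - 1)) : ℕ) + 1) - a ((π j : Fin (t - 1)) : ℕ) <
              a (((π i : Fin (t - 1)) : ℕ) + 1) - a ((π i : Fin (t - 1)) : ℕ)) := by
  classical
  intro q hq k
  obtain ⟨C, hC⟩ := exists_sol q (k + 1) hq (by omega) (rankMax (k + 1) q + 1) 1 1 one_pos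
  refine ⟨2 * C, ?_⟩
  intro t ht π hπ N hN f
  rcases Nat.lt_or_ge t 2 with ht2 | ht2
  · -- a single vertex
    refine ⟨fun _ => 0, ⟨0, hq⟩, ?_, ?_, ?_, ?_⟩
    · intro i hi; omega
    · intro i _
      exact lt_of_lt_of_le (by positivity) hN
    · intro i j hij hj; omega
    · intro i j hij
      exact absurd i.2 (by omega)
  -- the ranks
  set rk : ℕ → ℕ := fun g => if h : g < t - 1 then ((π.symm ⟨g, h⟩ : Fin (t - 1)) : ℕ) else t with hrkdef
  have hrkv : ∀ (g : ℕ) (h : g < t - 1), rk g = ((π.symm ⟨g, h⟩ : Fin (t - 1)) : ℕ) := by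
    intro g h
    simp only [hrkdef]
    rw [dif_pos h]
  have hgood : GoodRk t rk := by
    constructor
    · intro g g' hg hg' h
      rw [hrkv g (by omega), hrkv g' (by omega)] at h
      have h1 := π.symm.injective (Fin.ext h)
      exact congrArg Fin.val h1
    · intro g hg
      rw [hrkv g (by omega)]
      have := (π.symm ⟨g, by omega⟩).2
      omega
    · intro J hJ
      refine ⟨(π ⟨J, by omega⟩ : Fin (t - 1)), ?_, ?_⟩
      · have := (π ⟨J, by omega⟩ : Fin (t - 1)).2
        omega
      · rw [hrkv _ (π ⟨J, by omega⟩ : Fin (t - 1)).2]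
        simp
  have hLM : (LM t rk).card ≤ k + 1 := by
    have hsub : LM t rk ⊆ (localMin π).image (fun g : Fin (t - 1) => (g : ℕ)) := by
      intro g hg
      unfold LM at hg
      rw [Finset.mem_filter, Finset.mem_range] at hg
      obtain ⟨hg1, hg2⟩ := hg
      rw [Finset.mem_image]
      refine ⟨⟨g, hg1⟩, ?_, rfl⟩
      unfold localMin
      rw [Finset.mem_filter]
      refine ⟨Finset.mem_univ _, ?_⟩
      intro h hadj
      have h1 := hg2 h (by have := h.2; omega) hadj
      rw [hrkv g hg1, hrkv h h.2] at h1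
      exact h1
    have h1 := Finset.card_le_card hsub
    have h2 : ((localMin π).image (fun g : Fin (t - 1) => (g : ℕ))).card ≤ (localMin π).card := Finset.card_image_le
    omega
  -- the symmetric colouring
  set F : ℕ → ℕ → Fin q := fun a b => f (min a b) (max a b) with hFdef
  have hF : ∀ a b, F a b = F b a := by
    intro a b
    simp only [hFdef, min_comm a b, max_comm a b]
  -- the initial state
  set v := C * (t + 0) with hv
  have hstate : State (ι := Unit) (3 ^ v) t rk F (fun _ _ => ⟨0, hq⟩) v (fun _ => Finset.range (3 ^ v))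
      {0} (fun _ => ()) (fun _ _ => 0) := by
    constructor
    · intro i a ha
      exact Finset.mem_range.1 ha
    · intro i
      refine ⟨0, ?_⟩
      intro a ha
      rw [Finset.mem_Ico]
      have := Finset.mem_range.1 ha
      omega
    · exact ⟨0, Finset.mem_singleton_self _⟩
    · intro u hu u' hu' _
      rw [Finset.mem_singleton.1 hu, Finset.mem_singleton.1 hu']
    · intro u hu u' hu' i _ h2
      rw [Finset.mem_singleton.1 hu, Finset.mem_singleton.1 hu'] at h2
      exact absurd (agr.refl _ _) h2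
    · intro i E hE
      have hE0 : E = {0} := by
        rcases Finset.subset_singleton_iff.1 hE.sub with h | h
        · exact absurd h hE.ne.ne_empty
        · exact h
      rw [hE0]
      exact ⟨_, REmb.start (3 ^ v) t ht2 rk F i v _ 0⟩
  have hvol : vol (fun _ : Unit => Finset.range (3 ^ v)) = 3 ^ v := by
    unfold vol
    simp
  have hcnt : (1 : ℝ) * vol (fun _ : Unit => Finset.range (3 ^ v)) ≤
      cnt (Right F (fun _ _ => (⟨0, hq⟩ : Fin q))) (fun _ : Unit => Finset.range (3 ^ v)) := by
    rw [one_mul, vol_eq_card]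
    unfold cnt
    rw [Finset.filter_true_of_mem]
    intro s _ i j hij
    exact absurd (Subsingleton.elim i j) hij
  obtain ⟨a, c, h1, h2, h3, h4⟩ := hC t ht2 (3 ^ v) rk F hF hgood hLM Unit (by simp) 0 v le_rfl
    (fun _ _ => ⟨0, hq⟩) (fun _ => Finset.range (3 ^ v)) {0} (fun _ => ()) (fun _ _ => 0) hstate
    (Nat.lt_succ_of_le (rank_le _ _)) hcnt (by rw [hvol]; simp)
  have hmono : ∀ m n, m < n → n < t → a m < a n := by
    intro m n hmn
    induction n with
    | zero => exact absurd hmn (Nat.not_lt_zero _)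
    | succ n ih =>
      intro hn
      rcases Nat.lt_succ_iff_lt_or_eq.1 hmn with h5 | h5
      · exact (ih h5 (by omega)).trans (h1 n hn)
      · rw [h5]; exact h1 n hn
  refine ⟨a, c, h1, ?_, ?_, ?_⟩
  · intro i hi
    refine lt_of_lt_of_le (h2 i hi) (le_trans ?_ hN)
    rw [hv, add_zero]
    calc 3 ^ (C * t) ≤ 4 ^ (C * t) := Nat.pow_le_pow_left (by norm_num) _
      _ = 2 ^ (2 * C * t) := by
        rw [show (4 : ℕ) = 2 ^ 2 by norm_num, ← pow_mul]
        congr 1; ring
  · intro i j hij hj
    have h5 := h3 i j hij hj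
    have h6 := hmono i j hij hj
    simp only [hFdef, min_eq_left h6.le, max_eq_right h6.le] at h5
    exact h5
  · intro i j hij
    have h5 : rk (π i : Fin (t - 1)) = i := by
      rw [hrkv _ (π i : Fin (t - 1)).2]; simp
    have h6 : rk (π j : Fin (t - 1)) = j := by
      rw [hrkv _ (π j : Fin (t - 1)).2]; simp
    refine h4 (π i : Fin (t - 1)) (π j : Fin (t - 1)) ?_ ?_ ?_
    · have := (π i : Fin (t - 1)).2; omega
    · have := (π j : Fin (t - 1)).2; omega
    · rw [h5, h6]; exact hij

end Pool.Agent.Results.MP_4cb405_co.FewLocalMinima
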