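import Pool.Agent.helper890_tame.Main

/-!
An exponential bound for all gap orders, for colourings in which any two comparably separated sets
of vertices contain constant fractions between which one colour is hereditarily dense (or complete).
-/

set_option autoImplicit false

namespace Pool.Agent.Results.MP_4cb405_co.HereditarilyDensePairs

open Finset Pool.Agent.helper890_tame

/-- For all `q ≥ 1` and `η, ε > 0` there is `C` such that for all `t ≥ 1`, every permutation `π` of
the `t - 1` gaps, every `m ≥ 1` and `N ≥ 2 ^ (C t) * m ^ C`, each `q`-colouring of `K_N` which is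
`Tame` with parameters `η`, `ε`, `m` has a monochromatic `K_t` whose consecutive gaps strictly
decrease in the order given by `π`. -/
theorem result :
    ∀ q : ℕ, 0 < q → ∀ η ε : ℝ, 0 < η → 0 < ε → ∃ C : ℕ, ∀ t : ℕ, 0 < t →
      ∀ π : Equiv.Perm (Fin (t - 1)), ∀ m : ℕ, 1 ≤ m →
      ∀ N : ℕ, 2 ^ (C * t) * m ^ C ≤ N → ∀ f : ℕ → ℕ → Fin q, Tame f η ε m N →
        ∃ a : ℕ → ℕ, ∃ col : Fin q,
          (∀ i : ℕ, i + 1 < t → a i < a (i + 1)) ∧
          (∀ i : ℕ, i < t → a i < N) ∧
          (∀ i j : ℕ, i < j → j < t → f (a i) (a j) = col) ∧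
          (∀ i j : Fin (t - 1), i < j →
            a (((π j : Fin (t - 1)) : ℕ) + 1) - a ((π j : Fin (t - 1)) : ℕ) <
              a (((π i : Fin (t - 1)) : ℕ) + 1) - a ((π i : Fin (t - 1)) : ℕ)) := by
  intro q hq η ε hη hε
  exact main q hq η ε hη hε

end Pool.Agent.Results.MP_4cb405_co.HereditarilyDensePairs
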