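import Pool.Agent.helper890_cut.Next

/-!
An exponential bound for the Ramsey numbers with ordered gaps, for all gap orders in which the
remaining gaps form a block of consecutive gaps at least once in every `r` stages.
-/

set_option autoImplicit false
set_option linter.unusedVariables false

namespace Pool.Agent.Results.MP_4cb405_co.RecurringBlocks

open Finset Pool.Agent.helper890_gap Pool.Agent.helper890_cut

/-- The gaps other than the `k` largest ones are consecutive. (The gap `g` is one of the `k`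
largest ones iff it is among the first `k` listed by `π`, that is `π.symm g < k`.) -/
def RestIsBlock {n : ℕ} (π : Equiv.Perm (Fin n)) (k : ℕ) : Prop :=
  ∀ x y z : Fin n, x < y → y < z → k ≤ (π.symm x : ℕ) → k ≤ (π.symm z : ℕ) → k ≤ (π.symm y : ℕ)

/-- For all `q ≥ 1` and `r` there is `c` such that for all `t ≥ 1`, every permutation `π` of the
`t - 1` gaps for which among any `r` consecutive stages there is one where the remaining gaps form
a block, and `N ≥ 2 ^ (c t)`, each `q`-colouring of `K_N` has a monochromatic `K_t` whose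
consecutive gaps strictly decrease in the order given by `π`. -/
theorem result :
    ∀ q : ℕ, 0 < q → ∀ r : ℕ, ∃ c : ℕ, ∀ t : ℕ, 0 < t → ∀ π : Equiv.Perm (Fin (t - 1)),
      (∀ k : ℕ, k < t - 1 → ∃ k' : ℕ, k < k' ∧ k' ≤ k + r ∧ RestIsBlock π k') →
      ∀ N : ℕ, 2 ^ (c * t) ≤ N → ∀ f : ℕ → ℕ → Fin q,
        ∃ a : ℕ → ℕ, ∃ col : Fin q,
          (∀ i : ℕ, i + 1 < t → a i < a (i + 1)) ∧
          (∀ i : ℕ, i < t → a i < N) ∧
          (∀ i j : ℕ, i < j → j < t → f (a i) (a j) = col) ∧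
          (∀ i j : Fin (t - 1), i < j →
            a (((π j : Fin (t - 1)) : ℕ) + 1) - a ((π j : Fin (t - 1)) : ℕ) <
              a (((π i : Fin (t - 1)) : ℕ) + 1) - a ((π i : Fin (t - 1)) : ℕ)) := by
  classical
  intro q hq r
  obtain ⟨M, K, hM, hK, hsup⟩ := super q r hq
  have hQ0 : (0 : ℝ) < (4 * M : ℕ) := by
    have : 0 < 4 * M := by omega
    exact_mod_cast this
  have hβ : (1 : ℝ) < (2 * (4 * M : ℕ) + 1) / (2 * (4 * M : ℕ)) := by
    rw [one_lt_div (by positivity)]
    linarith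
  obtain ⟨c1, hc1⟩ := pow_unbounded_of_one_lt (((4 * K : ℕ) : ℝ) ^ q) hβ
  refine ⟨c1 * (4 * M), ?_⟩
  intro t ht π hπ N hN f
  -- the ranks
  set rk : ℕ → ℕ := fun g => if h : g < t - 1 then ((π.symm ⟨g, h⟩ : Fin (t - 1)) : ℕ) else t with hrkdef
  have hrkv : ∀ (g : ℕ) (h : g < t - 1), rk g = ((π.symm ⟨g, h⟩ : Fin (t - 1)) : ℕ) := by
    intro g h
    simp only [hrkdef]
    rw [dif_pos h]
  have hgood : GoodRk t rk := by
    constructor
    · intro g g' hg hg' h
      rw [hrkv g (by omega), hrkv g' (by omega)] at h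
      have h1 := π.symm.injective (Fin.ext h)
      exact congrArg Fin.val h1
    · intro g hg
      rw [hrkv g (by omega)]
      have := (π.symm ⟨g, by omega⟩).2
      omega
    · intro J hJ
      refine ⟨(π ⟨J, by omega⟩ : Fin (t - 1)), ?_, ?_⟩
      · have := (π ⟨J, by omega⟩ : Fin (t - 1)).2
        omega
      · rw [hrkv _ (π ⟨J, by omega⟩ : Fin (t - 1)).2]
        simp
  have hcut : ∀ k, k < t - 1 → ∃ k', k < k' ∧ k' ≤ k + r ∧ ∀ x y z, x < y → y < z → z + 1 < t →
      k' ≤ rk x → k' ≤ rk z → k' ≤ rk y := by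
    intro k hk
    obtain ⟨k', h1, h2, h3⟩ := hπ k hk
    refine ⟨k', h1, h2, ?_⟩
    intro x y z hxy hyz hz hx hz'
    rw [hrkv x (by omega)] at hx
    rw [hrkv z (by omega)] at hz'
    rw [hrkv y (by omega)]
    exact h3 ⟨x, by omega⟩ ⟨y, by omega⟩ ⟨z, by omega⟩ hxy hyz hx hz'
  set w := c1 * t with hw
  have hPE : ∀ c : Fin q, PE ((4 * M) ^ w) t rk f c 0 (Finset.range ((4 * M) ^ w)) 0 (t - 1)
      (fun _ => 0) := by
    intro c
    refine ⟨Nat.zero_le _, by omega, ?_, ?_, ?_, ?_, ?_⟩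
    · intro g hg
      constructor
      · intro _; omega
      · intro _; exact Nat.zero_le _
    · intro a ha i hi
      exact Finset.mem_range.1 (ha.1 i (Nat.zero_le _) (by omega))
    · intro a ha g hg hn
      exact absurd ⟨Nat.zero_le _, by omega⟩ hn
    · intro a ha g g' hg hg' hn
      exact absurd ⟨Nat.zero_le _, by omega⟩ hn
    · intro a ha i j hij hj hn
      exact absurd ⟨Nat.zero_le _, by omega⟩ hn
  have hpot : ((4 * K : ℕ) : ℝ) ^ (∑ _c : Fin q, (t - 1 - 0)) ≤
      ((Finset.range ((4 * M) ^ w)).card : ℝ) *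
        ((2 * (4 * M : ℕ) + 1) / (2 * (4 * M : ℕ) ^ 2) : ℝ) ^ w := by
    rw [Finset.card_range, Nat.cast_pow, ← mul_pow]
    have h1 : ((4 * M : ℕ) : ℝ) * ((2 * (4 * M : ℕ) + 1) / (2 * (4 * M : ℕ) ^ 2)) =
        (2 * (4 * M : ℕ) + 1) / (2 * (4 * M : ℕ)) := by
      generalize ((4 * M : ℕ) : ℝ) = Q at hQ0
      field_simp
    rw [h1, hw, pow_mul]
    have h2 : (1 : ℝ) ≤ ((4 * K : ℕ) : ℝ) := by
      have : 1 ≤ 4 * K := by omega
      exact_mod_cast this
    calc ((4 * K : ℕ) : ℝ) ^ (∑ _c : Fin q, (t - 1 - 0)) ≤ ((4 * K : ℕ) : ℝ) ^ (q * t) := by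
          refine pow_le_pow_right₀ h2 ?_
          rw [Finset.sum_const, Finset.card_univ, Fintype.card_fin, smul_eq_mul]
          exact Nat.mul_le_mul_left _ (by omega)
      _ = (((4 * K : ℕ) : ℝ) ^ q) ^ t := by rw [pow_mul]
      _ ≤ (((2 * (4 * M : ℕ) + 1) / (2 * (4 * M : ℕ)) : ℝ) ^ c1) ^ t :=
          pow_le_pow_left₀ (by positivity) hc1.le _
  obtain ⟨a, c, h1, h2, h3, h4⟩ := main_step hq hM hK hsup (N := (4 * M) ^ w) (f := f)
    (fun g hg => by have := hgood.lt g hg; omega) (next_cut hgood hcut) w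
    (Finset.range ((4 * M) ^ w)) 0 (fun z hz => by
      have := Finset.mem_range.1 hz
      omega) (fun _ => 0) (fun _ => 0) (fun _ => t - 1) (fun _ _ => 0) hPE hpot
  refine ⟨a, c, h1, ?_, h3, ?_⟩
  · intro i hi
    refine lt_of_lt_of_le (h2 i hi) (le_trans ?_ hN)
    calc (4 * M) ^ w ≤ (2 ^ (4 * M)) ^ w := Nat.pow_le_pow_left Nat.lt_two_pow_self.le _
      _ = 2 ^ (c1 * (4 * M) * t) := by
        rw [← pow_mul, hw]
        congr 1; ring
  · intro i j hij
    have h5 : rk (π i : Fin (t - 1)) = i := by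
      rw [hrkv _ (π i : Fin (t - 1)).2]; simp
    have h6 : rk (π j : Fin (t - 1)) = j := by
      rw [hrkv _ (π j : Fin (t - 1)).2]; simp
    refine h4 (π i : Fin (t - 1)) (π j : Fin (t - 1)) ?_ ?_ ?_
    · have := (π i : Fin (t - 1)).2; omega
    · have := (π j : Fin (t - 1)).2; omega
    · rw [h5, h6]; exact hij

end Pool.Agent.Results.MP_4cb405_co.RecurringBlocks
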